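import Pool.Agent.W360.BQ.Stm

/-! Project BQ, part COMP: compactness of Galerkin solutions (adapted from Pool.Agent.W182.IW.Comp). -/

set_option autoImplicit false

namespace Pool.Agent.W91.BQ.Comp

open MeasureTheory Set Filter Topology
open Pool.Agent.W360.BQ
open Pool.Agent.W488.IW hiding Dat sm smI Vf VN VI pr Sol Conv S_ODE S_EN S_COMP S_LIM S_LEQ S_STR
  S_TAIL

section

variable {H : Type} [NormedAddCommGroup H] [InnerProductSpace ℂ H] [CompleteSpace H]

theorem m2_nonneg (k : Idx) : 0 ≤ m2 k := by unfold m2; positivity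

theorem norm_ka_sq (k : Idx) : ‖ka k‖ ^ 2 = m2 k := by
  unfold ka m2
  rw [Complex.sq_norm, Complex.normSq_mul, Complex.normSq_mul, Complex.normSq_ofReal,
    Complex.normSq_I]
  have : Complex.normSq ((k.1 : ℂ) - (k.2 : ℂ) * Complex.I) = (k.1 : ℝ) ^ 2 + (k.2 : ℝ) ^ 2 := by
    rw [Complex.normSq_apply]
    simp
    ring
  rw [this]; ring

theorem norm_kb_sq (k : Idx) : ‖kb k‖ ^ 2 = m2 k := by
  unfold kb m2
  rw [Complex.sq_norm, Complex.normSq_mul, Complex.normSq_mul, Complex.normSq_ofReal,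
    Complex.normSq_I]
  have : Complex.normSq ((k.1 : ℂ) + (k.2 : ℂ) * Complex.I) = (k.1 : ℝ) ^ 2 + (k.2 : ℝ) ^ 2 := by
    rw [Complex.normSq_apply]
    simp
    ring
  rw [this]; ring

theorem norm_ka (k : Idx) : ‖ka k‖ = Real.sqrt (m2 k) := by
  rw [← norm_ka_sq, Real.sqrt_sq (norm_nonneg _)]

theorem norm_kb (k : Idx) : ‖kb k‖ = Real.sqrt (m2 k) := by
  rw [← norm_kb_sq, Real.sqrt_sq (norm_nonneg _)]

theorem sm_norm_sq (D : Dat H) (Λ : Finset Idx) (w c : Idx → ℂ) :
    ‖sm D Λ w c‖ ^ 2 = ∑ k ∈ Λ, ‖w k * c k‖ ^ 2 := by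
  unfold sm
  have h := D.e.orthonormal.inner_sum (fun k => w k * c k) (fun k => w k * c k) Λ
  have h2 := inner_self_eq_norm_sq_to_K (𝕜 := ℂ) (∑ k ∈ Λ, (w k * c k) • D.e k)
  rw [h] at h2
  have h3 : (((‖∑ k ∈ Λ, (w k * c k) • D.e k‖ ^ 2 : ℝ)) : ℂ)
      = ((∑ k ∈ Λ, ‖w k * c k‖ ^ 2 : ℝ) : ℂ) := by
    push_cast
    rw [show ((‖∑ k ∈ Λ, (w k * c k) • D.e k‖ : ℂ)) ^ 2
      = (RCLike.ofReal ‖∑ k ∈ Λ, (w k * c k) • D.e k‖ : ℂ) ^ 2 from rfl, ← h2]
    refine Finset.sum_congr rfl fun k _ => ?_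
    rw [Complex.conj_mul']
  exact_mod_cast h3

theorem sm_le (D : Dat H) (N : ℕ) (w c : Idx → ℂ) (hw : ∀ k, ‖w k‖ = m2 k) :
    ‖sm D (box N) w c‖ = Real.sqrt (di N c) := by
  rw [← Real.sqrt_sq (norm_nonneg (sm D (box N) w c)), sm_norm_sq]
  unfold di
  congr 1
  refine Finset.sum_congr rfl fun k _ => ?_
  rw [norm_mul, hw, mul_pow]

theorem VN_le (D : Dat H) (N : ℕ) (c : Idx → ℂ) :
    ‖VN D (box N) c‖ ≤ (D.M + 2) * Real.sqrt (di N c) := by
  unfold VN Vf
  set a := sm D (box N) ka c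
  set b := sm D (box N) kb c
  have hs : ∀ k, Real.sqrt (m2 k) * Real.sqrt (m2 k) = m2 k :=
    fun k => Real.mul_self_sqrt (m2_nonneg k)
  have hp := sm_le D N (fun k => ka k ^ 2) c (fun k => by rw [norm_pow, norm_ka_sq])
  have hq := sm_le D N (fun k => ka k * kb k) c
    (fun k => by rw [norm_mul, norm_ka, norm_kb, hs])
  have hr := sm_le D N (fun k => kb k ^ 2) c (fun k => by rw [norm_pow, norm_kb_sq])
  have hn := D.hn
  have h1 : ‖D.m a b (sm D (box N) (fun k => ka k * kb k) c)‖ ≤ D.M * Real.sqrt (di N c) := by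
    refine ((D.m a b).le_opNorm _).trans ?_
    rw [hq]
    exact mul_le_mul_of_nonneg_right (D.c1 a b) (Real.sqrt_nonneg _)
  have h2 : ‖D.s a b (sm D (box N) (fun k => ka k ^ 2) c)‖ ≤ Real.sqrt (di N c) := by
    refine ((D.s a b).le_opNorm _).trans ?_
    rw [hp]
    calc ‖D.s a b‖ * Real.sqrt (di N c) ≤ 1 * Real.sqrt (di N c) :=
        mul_le_mul_of_nonneg_right (D.h1 a b) (Real.sqrt_nonneg _)
      _ = _ := one_mul _
  have h3 : ‖(D.s a b).adjoint (sm D (box N) (fun k => kb k ^ 2) c)‖ ≤ Real.sqrt (di N c) := by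
    refine ((D.s a b).adjoint.le_opNorm _).trans ?_
    rw [hr]
    have h4 : ‖(D.s a b).adjoint‖ ≤ 1 := by
      rw [LinearIsometryEquiv.norm_map]
      exact D.h1 a b
    calc ‖(D.s a b).adjoint‖ * Real.sqrt (di N c) ≤ 1 * Real.sqrt (di N c) :=
        mul_le_mul_of_nonneg_right h4 (Real.sqrt_nonneg _)
      _ = _ := one_mul _
  calc _ ≤ ‖D.m a b (sm D (box N) (fun k => ka k * kb k) c)‖
        + ‖D.s a b (sm D (box N) (fun k => ka k ^ 2) c)‖
        + ‖(D.s a b).adjoint (sm D (box N) (fun k => kb k ^ 2) c)‖ := norm_add₃_le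
    _ ≤ D.M * Real.sqrt (di N c) + Real.sqrt (di N c) + Real.sqrt (di N c) := by
        gcongr
    _ = _ := by ring

theorem M_nonneg (D : Dat H) : 0 ≤ D.M := (norm_nonneg _).trans (D.c1 0 0)

theorem di_nonneg (N : ℕ) (c : Idx → ℂ) : 0 ≤ di N c := by
  unfold di
  exact Finset.sum_nonneg fun k _ => by positivity

theorem en_nonneg (N : ℕ) (c : Idx → ℂ) : 0 ≤ en N c := by
  unfold en
  exact Finset.sum_nonneg fun k _ => mul_nonneg (m2_nonneg k) (by positivity)

theorem sol_cont (D : Dat H) (N : ℕ) (T : ℝ) (c0 : Idx → ℂ) (c : ℝ → Idx → ℂ)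
    (h : Sol D N T c0 c) (k : Idx) : ContinuousOn (fun t => c t k) (Icc 0 T) := by
  by_cases hk : k ∈ box N
  · exact fun t ht => (h.2.2 k hk t ht).continuousWithinAt
  · have : (fun t => c t k) = fun _ => 0 := by
      funext t; exact h.2.1 t k hk
    rw [this]; exact continuousOn_const

theorem di_cont (D : Dat H) (N : ℕ) (T : ℝ) (c0 : Idx → ℂ) (c : ℝ → Idx → ℂ)
    (h : Sol D N T c0 c) : ContinuousOn (fun t => di N (c t)) (Icc 0 T) := by
  unfold di
  refine continuousOn_finsetSum _ fun k _ => ?_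
  exact continuousOn_const.mul ((sol_cont D N T c0 c h k).norm.pow 2)

/-- Hölder bound -/
theorem holder (hEN : S_EN) (D : Dat H) (N : ℕ) (T : ℝ) (c0 : Idx → ℂ) (c : ℝ → Idx → ℂ)
    (hT : 0 < T) (h : Sol D N T c0 c) (k : Idx) (s t : ℝ) (hs : 0 ≤ s) (hst : s ≤ t)
    (ht : t ≤ T) :
    ‖c t k - c s k‖ ≤ (D.M + 2) * ((1 + en N c0 / (2 * (D.n - 2))) / 2) * Real.sqrt (t - s) := by
  have hn := D.hn
  have hM0 := M_nonneg D
  have hC : 0 ≤ en N c0 / (2 * (D.n - 2)) := div_nonneg (en_nonneg _ _) (by linarith)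
  by_cases hk : k ∈ box N
  swap
  · rw [h.2.1 t k hk, h.2.1 s k hk, sub_zero, norm_zero]; positivity
  rcases eq_or_lt_of_le hst with rfl | hlt
  · simp
  have hd := di_cont D N T c0 c h
  set lam : ℝ := 1 / Real.sqrt (t - s) with hlam
  have hpos : 0 < Real.sqrt (t - s) := Real.sqrt_pos.mpr (by linarith)
  have hlp : 0 < lam := by positivity
  have hsub : Icc s t ⊆ Icc 0 T := Icc_subset_Icc hs ht
  -- the comparison function
  have hint : IntervalIntegrable (fun u => di N (c u)) volume 0 T :=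
    ContinuousOn.intervalIntegrable (by rwa [uIcc_of_le hT.le])
  have hBc : ContinuousOn (fun u => (D.M + 2) * (lam / 2 + di N (c u) / (2 * lam))) (Icc s t) :=
    continuousOn_const.mul (continuousOn_const.add ((hd.mono hsub).div_const _))
  have hB : ∀ u ∈ Ico s t, HasDerivWithinAt
      (fun v => ∫ x in s..v, (D.M + 2) * (lam / 2 + di N (c x) / (2 * lam)))
      ((D.M + 2) * (lam / 2 + di N (c u) / (2 * lam))) (Ici u) u := by
    intro u hu
    have hu' : u ∈ Icc s t := Ico_subset_Icc_self hu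
    refine intervalIntegral.integral_hasDerivWithinAt_right ?_ (s := Ici u) (t := Ioi u) ?_ ?_
    · refine ContinuousOn.intervalIntegrable ?_
      rw [uIcc_of_le hu.1]
      exact hBc.mono (Icc_subset_Icc_right hu.2.le)
    · refine ⟨Ioc u t, ?_, ?_⟩
      · exact Ioc_mem_nhdsGT hu.2
      · exact (hBc.mono (Ioc_subset_Icc_self.trans (Icc_subset_Icc_left hu.1))).aestronglyMeasurable
          measurableSet_Ioc
    · have := hBc u hu'
      refine this.mono_of_mem_nhdsWithin ?_
      refine mem_of_superset (Ioc_mem_nhdsGT hu.2) ?_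
      exact Ioc_subset_Icc_self.trans (Icc_subset_Icc_left hu.1)
  have key := image_norm_le_of_norm_deriv_right_le_deriv_boundary'
    (f := fun u => c u k - c s k)
    (f' := fun u => inner ℂ (D.e k : H) (VN D (box N) (c u)))
    (B := fun v => ∫ x in s..v, (D.M + 2) * (lam / 2 + di N (c x) / (2 * lam)))
    (B' := fun u => (D.M + 2) * (lam / 2 + di N (c u) / (2 * lam)))
    (a := s) (b := t) ?_ ?_ ?_ ?_ hB ?_ (right_mem_Icc.mpr hst)
  · refine key.trans ?_
    rw [intervalIntegral.integral_const_mul]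
    have h1 : IntervalIntegrable (fun u => di N (c u)) volume s t :=
      hint.mono_set (by rw [uIcc_of_le hst, uIcc_of_le hT.le]; exact hsub)
    rw [intervalIntegral.integral_add (by simp) (h1.div_const _),
      intervalIntegral.integral_const, intervalIntegral.integral_div, smul_eq_mul]
    have h2 : ∫ x in s..t, di N (c x) ≤ en N c0 / (2 * (D.n - 2)) := by
      refine le_trans ?_ (hEN H D N T c0 c hT h).2
      refine intervalIntegral.integral_mono_interval hs hst ht ?_ hint
      exact Eventually.of_forall fun x => di_nonneg _ _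
    rw [mul_assoc]
    refine mul_le_mul_of_nonneg_left ?_ (by linarith)
    have h3 : (t - s) * (lam / 2) = Real.sqrt (t - s) / 2 := by
      rw [hlam]
      have := Real.mul_self_sqrt (show 0 ≤ t - s by linarith)
      field_simp
      nlinarith
    have h4 : (∫ x in s..t, di N (c x)) / (2 * lam)
        ≤ en N c0 / (2 * (D.n - 2)) * Real.sqrt (t - s) / 2 := by
      have : (∫ x in s..t, di N (c x)) / (2 * lam)
          = (∫ x in s..t, di N (c x)) * Real.sqrt (t - s) / 2 := by
        rw [hlam]; field_simp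
      rw [this]
      gcongr
    rw [h3]
    linarith
  · exact ((sol_cont D N T c0 c h k).mono hsub).sub continuousOn_const
  · intro u hu
    have h5 := (h.2.2 k hk u (hsub (Ico_subset_Icc_self hu))).sub_const (c s k)
    refine h5.mono_of_mem_nhdsWithin ?_
    refine mem_of_superset (Icc_mem_nhdsGE hu.2) ?_
    exact Icc_subset_Icc (hs.trans hu.1) ht
  · simp
  · have hii : IntervalIntegrable (fun x => (D.M + 2) * (lam / 2 + di N (c x) / (2 * lam)))
        volume s t := ContinuousOn.intervalIntegrable (by rwa [uIcc_of_le hst])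
    have := intervalIntegral.continuousOn_primitive_interval' hii left_mem_uIcc
    rwa [uIcc_of_le hst] at this
  · intro u hu
    have h6 : ‖(inner ℂ (D.e k : H) (VN D (box N) (c u)) : ℂ)‖ ≤ ‖VN D (box N) (c u)‖ := by
      refine (norm_inner_le_norm _ _).trans ?_
      rw [D.e.orthonormal.1 k, one_mul]
    refine h6.trans ((VN_le D N (c u)).trans ?_)
    refine mul_le_mul_of_nonneg_left ?_ (by linarith)
    have h7 := Real.mul_self_sqrt (di_nonneg N (c u))
    have h8 : Real.sqrt (di N (c u)) * (2 * lam) ≤ lam ^ 2 + di N (c u) := by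
      nlinarith [sq_nonneg (lam - Real.sqrt (di N (c u)))]
    have h9 : lam / 2 + di N (c u) / (2 * lam) = (lam ^ 2 + di N (c u)) / (2 * lam) := by
      field_simp
    rw [h9, le_div_iff₀ (by positivity)]
    exact h8

theorem en_eq (N M : ℕ) (h : N ≤ M) (c : Idx → ℂ) (hc : ∀ k, k ∉ box N → c k = 0) :
    en M c = en N c := by
  unfold en
  symm
  refine Finset.sum_subset ?_ ?_
  · intro k hk
    simp only [box, Finset.mem_product, Finset.mem_Icc] at hk ⊢
    have : (N : ℤ) ≤ M := by exact_mod_cast h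
    refine ⟨⟨?_, ?_⟩, ?_, ?_⟩ <;> linarith [hk.1.1, hk.1.2, hk.2.1, hk.2.2]
  · intro k _ hk
    rw [hc k hk]; simp

theorem main (hEN : S_EN) : S_COMP := by
  intro H _ _ _ D T c0 Nn cs hT hN hSol
  have hn := D.hn
  have hM1 := M_nonneg D
  set M : ℝ := (D.M + 2) * ((1 + en (Nn 0) c0 / (2 * (D.n - 2))) / 2) with hM
  have hM0 : 0 ≤ M := by
    have : 0 ≤ en (Nn 0) c0 / (2 * (D.n - 2)) := div_nonneg (en_nonneg _ _) (by linarith)
    positivity
  have hc0 : ∀ k, k ∉ box (Nn 0) → c0 k = 0 := by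
    intro k hk
    have := (hSol 0).2.1 0 k hk
    rwa [(hSol 0).1] at this
  have hH : ∀ j k (s t : ℝ), s ∈ Icc (0 : ℝ) T → t ∈ Icc (0 : ℝ) T →
      dist (cs j s k) (cs j t k) ≤ M * Real.sqrt (dist s t) := by
    intro j k
    have h1 : ∀ s t : ℝ, 0 ≤ s → s ≤ t → t ≤ T →
        dist (cs j s k) (cs j t k) ≤ M * Real.sqrt (dist s t) := by
      intro s t hs hst ht
      have := holder hEN D (Nn j) T c0 (cs j) hT (hSol j) k s t hs hst ht
      rw [en_eq (Nn 0) (Nn j) (hN.monotone (Nat.zero_le j)) c0 hc0] at this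
      rw [dist_comm, dist_eq_norm, dist_comm, Real.dist_eq, abs_of_nonneg (by linarith)]
      exact this
    intro s t hs ht
    rcases le_total s t with h | h
    · exact h1 s t hs.1 h ht.2
    · rw [dist_comm, dist_comm s t]; exact h1 t s ht.1 h hs.2
  -- the compact sets
  let X := Icc (0 : ℝ) T
  let A : Idx → Set (BoundedContinuousFunction X ℂ) := fun k =>
    {f | (∀ x, f x ∈ Metric.closedBall (0 : ℂ) (‖c0 k‖ + M * Real.sqrt T)) ∧
      ∀ x y, dist (f x) (f y) ≤ M * Real.sqrt (dist x y)}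
  have hA : ∀ k, IsCompact (A k) := by
    intro k
    refine BoundedContinuousFunction.arzela_ascoli₂ _ (isCompact_closedBall (0 : ℂ) _) (A k) ?_
      (fun f x hf => hf.1 x) ?_
    · refine IsClosed.inter ?_ ?_
      · have : {f : BoundedContinuousFunction X ℂ | ∀ x, f x ∈
            Metric.closedBall (0 : ℂ) (‖c0 k‖ + M * Real.sqrt T)}
            = ⋂ x, {f | f x ∈ Metric.closedBall (0 : ℂ) (‖c0 k‖ + M * Real.sqrt T)} := by
          ext f; simp
        show IsClosed {f : BoundedContinuousFunction X ℂ | ∀ x, f x ∈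
            Metric.closedBall (0 : ℂ) (‖c0 k‖ + M * Real.sqrt T)}
        rw [this]
        exact isClosed_iInter fun x =>
          Metric.isClosed_closedBall.preimage ((continuous_eval_const _))
      · have : {f : BoundedContinuousFunction X ℂ | ∀ x y,
            dist (f x) (f y) ≤ M * Real.sqrt (dist x y)}
            = ⋂ x, ⋂ y, {f | dist (f x) (f y) ≤ M * Real.sqrt (dist x y)} := by
          ext f; simp
        show IsClosed {f : BoundedContinuousFunction X ℂ | ∀ x y,
            dist (f x) (f y) ≤ M * Real.sqrt (dist x y)}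
        rw [this]
        exact isClosed_iInter fun x => isClosed_iInter fun y =>
          isClosed_le (((continuous_eval_const _)).dist
            ((continuous_eval_const _))) continuous_const
    · refine Metric.equicontinuous_of_continuity_modulus (fun r => M * Real.sqrt r) ?_ _ ?_
      · have : Continuous fun r => M * Real.sqrt r := continuous_const.mul Real.continuous_sqrt
        have h := this.tendsto 0
        simpa using h
      · intro x y f
        exact f.2.2 x y
  -- the functions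
  have hcont : ∀ j k, Continuous (fun t : X => cs j t k) := fun j k =>
    continuousOn_iff_continuous_domRestrict.mp (sol_cont D (Nn j) T c0 (cs j) (hSol j) k)
  let F : ℕ → Idx → BoundedContinuousFunction X ℂ := fun j k =>
    BoundedContinuousFunction.mkOfCompact ⟨fun t : X => cs j t k, hcont j k⟩
  have hF : ∀ j, F j ∈ Set.pi univ A := by
    intro j k _
    refine ⟨fun x => ?_, fun x y => hH j k x y x.2 y.2⟩
    show cs j x k ∈ Metric.closedBall (0 : ℂ) (‖c0 k‖ + M * Real.sqrt T)
    rw [mem_closedBall_zero_iff]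
    have h1 := hH j k x 0 x.2 (left_mem_Icc.mpr hT.le)
    have h2 : cs j 0 k = c0 k := by rw [(hSol j).1]
    rw [h2, dist_eq_norm, Real.dist_eq, sub_zero, abs_of_nonneg x.2.1] at h1
    have h3 : ‖cs j x k‖ ≤ ‖c0 k‖ + ‖cs j x k - c0 k‖ := by
      have := norm_add_le (c0 k) (cs j x k - c0 k)
      simpa using this
    have h4 : M * Real.sqrt (x : ℝ) ≤ M * Real.sqrt T :=
      mul_le_mul_of_nonneg_left (Real.sqrt_le_sqrt x.2.2) hM0
    linarith
  obtain ⟨f, hf, ψ, hψ, hlim⟩ := (isCompact_univ_pi hA).tendsto_subseq hF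
  refine ⟨ψ, hψ, fun t k => f k (projIcc 0 T hT.le t), hT, hN.comp hψ, fun j => hSol (ψ j),
    fun k => ?_, fun k => ?_⟩
  · exact ((f k).continuous.comp continuous_projIcc).continuousOn
  · have h1 := tendsto_pi_nhds.mp hlim k
    have h2 := BoundedContinuousFunction.tendsto_iff_tendstoUniformly.mp h1
    rw [tendstoUniformlyOn_iff_tendstoUniformly_comp_coe]
    have h3 : (fun t => f k (projIcc 0 T hT.le t)) ∘ (Subtype.val : X → ℝ) = f k := by
      funext x
      simp [projIcc_val]
    rw [h3]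
    exact h2

end

end Pool.Agent.W91.BQ.Comp
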